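import Pool.Agent.R677.AbsWord

/-!
# A semi-rational group whose absolute centre has an element of order three
-/

set_option autoImplicit false

open scoped BigOperators Classical
open CategoryTheory

noncomputable section

namespace Pool.Agent.Results.MP_82b5c7_al.SemiRationalAbsCenter

/-- `wordCount w g` is the number of tuples in `G` at which the word `w` takes the value `g`. -/
def wordCount {G : Type} [Group G] {r : ℕ} (w : FreeGroup (Fin r)) (g : G) : ℕ :=
  Nat.card {x : Fin r → G // FreeGroup.lift x w = g}

/-- `G` is semi-rational: for every word `w` in `r ≥ 1` variables and every irreducible complex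
representation `V` of `G`, the inner product of the class function `wordCount w` with the character
of `V` is an integer. -/
def SemiRational (G : Type) [Group G] [Fintype G] : Prop :=
  ∀ (r : ℕ) (w : FreeGroup (Fin r)), 1 ≤ r → ∀ V : FDRep ℂ G, Simple V →
    ∃ m : ℤ, (Nat.card G : ℂ)⁻¹ * ∑ g : G, (wordCount w g : ℂ) * star (V.character g) = m

/-- the absolute centre: the elements fixed by every automorphism -/
def absCenter (G : Type) [Group G] : Subgroup G where
  carrier := {g | ∀ α : G ≃* G, α g = g}
  one_mem' := fun α => map_one α
  mul_mem' := fun {a b} ha hb α => by rw [map_mul, ha α, hb α]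
  inv_mem' := fun {a} ha α => by rw [map_inv, ha α]

open Pool.Agent.R677

lemma sum_wordCount {G : Type} [Group G] [Fintype G] {r : ℕ} (w : FreeGroup (Fin r))
    (f : G → ℂ) :
    ∑ g : G, (wordCount w g : ℂ) * f g = ∑ x : Fin r → G, f (FreeGroup.lift x w) := by
  rw [← Finset.sum_fiberwise (s := Finset.univ) (g := fun x : Fin r → G => FreeGroup.lift x w)]
  refine Finset.sum_congr rfl fun g _ => ?_
  have h1 : ∀ x ∈ Finset.univ.filter (fun x : Fin r → G => FreeGroup.lift x w = g),
      f (FreeGroup.lift x w) = f g := by
    intro x hx
    rw [Finset.mem_filter] at hx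
    rw [hx.2]
  rw [Finset.sum_congr rfl h1, Finset.sum_const, nsmul_eq_mul]
  congr 2
  rw [wordCount, Nat.card_eq_fintype_card, Fintype.card_subtype]

/-- There is a finite semi-rational group whose absolute centre contains an element of order
three; in particular the exponent of its absolute centre is larger than two. -/
theorem result : ∃ (G : Type) (_ : Group G) (_ : Fintype G), SemiRational G ∧
    (∃ z ∈ absCenter G, orderOf z = 3) ∧ 2 < Monoid.exponent (absCenter G) := by
  refine ⟨AbsModel.Gp, inferInstance, inferInstance, ?_, ?_, ?_⟩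
  · intro r w hr V _
    rw [sum_wordCount]
    exact AbsWord.mult_int hr w V
  · exact ⟨AbsModel.z₀, AbsModel.fixed, AbsModel.z₀_order⟩
  · have hz : AbsModel.z₀ ∈ absCenter AbsModel.Gp := AbsModel.fixed
    have h1 : orderOf (⟨AbsModel.z₀, hz⟩ : absCenter AbsModel.Gp) = 3 := by
      rw [Subgroup.orderOf_mk]
      exact AbsModel.z₀_order
    have h2 : 3 ∣ Monoid.exponent (absCenter AbsModel.Gp) := by
      rw [← h1]
      exact Monoid.order_dvd_exponent _
    have h3 : Monoid.exponent (absCenter AbsModel.Gp) ≠ 0 :=
      Monoid.exponent_ne_zero_of_finite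
    exact lt_of_lt_of_le (by norm_num) (Nat.le_of_dvd (Nat.pos_of_ne_zero h3) h2)

end Pool.Agent.Results.MP_82b5c7_al.SemiRationalAbsCenter
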